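import Mathlib

set_option autoImplicit false

namespace Pool.Agent.K7.H80.EC

open Finset Filter

/-- Edges of `Q_d`: `(x, j)` with `x j = false` is the edge joining the vertex `x` to the vertex
obtained from `x` by changing coordinate `j` to `true`. -/
abbrev E (d : ℕ) := {p : (Fin d → Bool) × Fin d // p.1 p.2 = false}

/-- The copies of `Q_k` in `Q_d`: a set `S` of `k` free coordinates and the values of the fixed
coordinates (normalised by `y = false` on `S`). -/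
def Copies (d k : ℕ) : Finset (Finset (Fin d) × (Fin d → Bool)) :=
  univ.filter fun c => c.1.card = k ∧ ∀ i ∈ c.1, c.2 i = false

/-- The edge `e` belongs to the copy `c = (S, y)`. -/
def InCopy {d : ℕ} (c : Finset (Fin d) × (Fin d → Bool)) (e : E d) : Prop :=
  e.1.2 ∈ c.1 ∧ ∀ i, i ∉ c.1 → e.1.1 i = c.2 i

/-- `G` contains no copy of `Q_2`. -/
def SqFree {d : ℕ} (G : Finset (E d)) : Prop :=
  ¬ ∃ c ∈ Copies d 2, ∀ e : E d, InCopy c e → e ∈ G

/-- Orderings of the edges of `Q_d`: `σ t` is the `t`-th edge. -/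
abbrev Ord (d : ℕ) := Fin (Fintype.card (E d)) ≃ E d

open Classical in
/-- One step of the process: add `e` iff no copy of `Q_2` arises. -/
noncomputable def step {d : ℕ} (G : Finset (E d)) (e : E d) : Finset (E d) :=
  if SqFree (insert e G) then insert e G else G

/-- The final graph of the `Q_2`-free process with edge ordering `σ`. -/
noncomputable def final {d : ℕ} (σ : Ord d) : Finset (E d) :=
  (List.ofFn σ).foldl step ∅

open Classical in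
/-- The number of empty copies of `Q_k`. -/
noncomputable def NE {d : ℕ} (k : ℕ) (σ : Ord d) : ℕ :=
  ((Copies d k).filter fun c => ∀ e : E d, InCopy c e → e ∉ final σ).card

/-- Expected number of empty copies of `Q_k`, for a uniformly random ordering. -/
noncomputable def EN (d k : ℕ) : ℝ :=
  (∑ σ : Ord d, (NE k σ : ℝ)) / (Fintype.card (Ord d) : ℝ)

open Classical in
/-- `e` and all edges which lie in a common copy of `Q_2` with `e`. -/
noncomputable def nb {d : ℕ} (e : E d) : Finset (E d) :=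
  univ.filter fun f => f = e ∨ ∃ c ∈ Copies d 2, InCopy c e ∧ InCopy c f

/-- FIRST: an edge that comes before all others of `nb e` is accepted. -/
def StFirst : Prop := ∀ (d : ℕ) (σ : Ord d) (e : E d),
  (∀ f ∈ nb e, f ≠ e → σ.symm e < σ.symm f) → e ∈ final σ

/-- FREE: the final graph is `Q_2`-free. -/
def StFree : Prop := ∀ (d : ℕ) (σ : Ord d), SqFree (final σ)

/-- ACC: if `A` is `Q_2`-free and all of `A` comes before the rest of `⋃ nb`, then `A` is accepted. -/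
def StAcc : Prop := ∀ (d : ℕ) (σ : Ord d) (A : Finset (E d)), SqFree A →
  (∀ a ∈ A, ∀ b ∈ A, ∀ f ∈ nb b, f ∉ A → σ.symm a < σ.symm f) → A ⊆ final σ

/-- NB -/
def StNb : Prop := ∀ (d : ℕ) (e : E d), (nb e).card ≤ 3 * d

/-- DISJ: a large subset of a copy with pairwise disjoint `nb`. -/
def StDisj : Prop := ∀ (d k : ℕ), 1 ≤ k → ∀ c ∈ Copies d k, ∃ C : Finset (E d),
  (∀ e ∈ C, InCopy c e) ∧ (∀ e ∈ C, ∀ f ∈ C, e ≠ f → Disjoint (nb e) (nb f)) ∧
  2 ^ (k - 1) ≤ (2 * k + 1) * C.card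

open Classical in
/-- IND: `e` is first in `T e` independently for disjoint sets. -/
def StInd : Prop := ∀ (α : Type) [Fintype α] (C : Finset α) (T : α → Finset α) (s : ℕ), 1 ≤ s →
  (∀ e ∈ C, e ∈ T e) → (∀ e ∈ C, (T e).card ≤ s) →
  (∀ e ∈ C, ∀ f ∈ C, e ≠ f → Disjoint (T e) (T f)) →
  ((univ.filter fun σ : Fin (Fintype.card α) ≃ α =>
      ∀ e ∈ C, ¬ ∀ f ∈ T e, f ≠ e → σ.symm e < σ.symm f).card : ℝ) ≤
    (1 - 1 / (s : ℝ)) ^ C.card * (Fintype.card (Fin (Fintype.card α) ≃ α) : ℝ)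

open Classical in
/-- PREC: probability that all of `A` precedes `R \ A` is at least `|R|^(-|A|)`. -/
def StPrec : Prop := ∀ (α : Type) [Fintype α] (A R : Finset α), A ⊆ R →
  (Fintype.card (Fin (Fintype.card α) ≃ α) : ℝ) ≤ (R.card : ℝ) ^ A.card *
    ((univ.filter fun σ : Fin (Fintype.card α) ≃ α =>
      ∀ a ∈ A, ∀ f ∈ R, f ∉ A → σ.symm a < σ.symm f).card : ℝ)

/-- SET: the forcing set. -/
def StSet : Prop := ∀ (d k : ℕ), k + 2 ≤ d → ∀ c ∈ Copies d k, ∃ A : Finset (E d),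
  SqFree A ∧ A.card ≤ (k + 4) * 2 ^ k ∧
  ∀ e : E d, InCopy c e → e ∉ A ∧ ∃ c' ∈ Copies d 2, InCopy c' e ∧
    ∀ f : E d, InCopy c' f → f ≠ e → f ∈ A

/-- UB -/
def StUB : Prop := ∀ (d k : ℕ), 1 ≤ k → k ≤ d →
  EN d k ≤ 4 ^ d * Real.exp (-((2 : ℝ) ^ (k - 1) / (3 * d * (2 * k + 1))))

/-- LB -/
def StLB : Prop := ∀ (d k : ℕ), k + 2 ≤ d →
  (2 : ℝ) ^ (d - k) / ((3 * d * ((k + 4) * 2 ^ k) : ℝ) ^ ((k + 4) * 2 ^ k)) ≤ EN d k

/-- ASYU -/
def StAsyU : Prop := ∀ ε : ℝ, 0 < ε → ∀ k : ℕ → ℕ, (∀ d, k d ≤ d) →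
  (∀ᶠ d : ℕ in atTop, (2 + ε) * Real.logb 2 d ≤ k d) →
  Tendsto (fun d : ℕ => (4 : ℝ) ^ d *
    Real.exp (-((2 : ℝ) ^ (k d - 1) / (3 * d * (2 * k d + 1))))) atTop (nhds 0)

/-- ASYL -/
def StAsyL : Prop := ∀ ε : ℝ, 0 < ε → ∀ k : ℕ → ℕ,
  (∀ᶠ d : ℕ in atTop, (k d : ℝ) ≤ (1 - ε) * Real.logb 2 d) →
  Tendsto (fun d : ℕ => (2 : ℝ) ^ (d - k d) /
    ((3 * d * ((k d + 4) * 2 ^ k d) : ℝ) ^ ((k d + 4) * 2 ^ k d))) atTop atTop

/-- MAIN -/
def StMain : Prop :=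
  (∀ ε : ℝ, 0 < ε → ∀ k : ℕ → ℕ,
    (∀ᶠ d : ℕ in atTop, (k d : ℝ) ≤ (1 - ε) * Real.logb 2 d) →
    Tendsto (fun d : ℕ => EN d (k d)) atTop atTop) ∧
  (∀ ε : ℝ, 0 < ε → ∀ k : ℕ → ℕ, (∀ d, k d ≤ d) →
    (∀ᶠ d : ℕ in atTop, (2 + ε) * Real.logb 2 d ≤ k d) →
    Tendsto (fun d : ℕ => EN d (k d)) atTop (nhds 0))

end Pool.Agent.K7.H80.EC
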