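import Mathlib
import Pool.Agent.K7.H80.EC.Stm

/-!
# Lower bound for the expected number of empty subcubes (job LB of project EC)
-/

set_option autoImplicit false

namespace Pool.Agent.K7.H80.EC.LBfix

open Finset Pool.Agent.K7.H80.EC

open Classical in
theorem perCopy (hFree : StFree) (hAcc : StAcc) (hNb : StNb) (hSet : StSet) (hPrec : StPrec)
    (d k : ℕ) (h : k + 2 ≤ d) (c : Finset (Fin d) × (Fin d → Bool)) (hc : c ∈ Copies d k) :
    (Fintype.card (Ord d) : ℝ) / ((3 * d * ((k + 4) * 2 ^ k) : ℝ) ^ ((k + 4) * 2 ^ k)) ≤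
      ((univ.filter fun σ : Ord d => ∀ e : E d, InCopy c e → e ∉ final σ).card : ℝ) := by
  obtain ⟨A, hA, hAc, hAe⟩ := hSet d k h c hc
  set R : Finset (E d) := A.biUnion nb with hR
  have hself : ∀ e : E d, e ∈ nb e := by
    intro e
    simp [nb]
  have hAR : A ⊆ R := by
    intro a ha
    exact Finset.mem_biUnion.mpr ⟨a, ha, hself a⟩
  have hRc : R.card ≤ 3 * d * ((k + 4) * 2 ^ k) := by
    calc R.card ≤ ∑ a ∈ A, (nb a).card := Finset.card_biUnion_le
      _ ≤ ∑ a ∈ A, 3 * d := Finset.sum_le_sum (fun a _ => hNb d a)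
      _ = A.card * (3 * d) := by rw [Finset.sum_const, smul_eq_mul]
      _ ≤ (k + 4) * 2 ^ k * (3 * d) := Nat.mul_le_mul_right _ hAc
      _ = 3 * d * ((k + 4) * 2 ^ k) := by ring
  have hP := hPrec (E d) A R hAR
  set X : ℝ := (3 * d * ((k + 4) * 2 ^ k) : ℝ) ^ ((k + 4) * 2 ^ k) with hX
  have hM1 : 1 ≤ (k + 4) * 2 ^ k := Nat.one_le_iff_ne_zero.mpr (by positivity)
  have hbase1 : (1 : ℝ) ≤ (3 * d * ((k + 4) * 2 ^ k) : ℝ) := by
    have h1 : 1 ≤ 3 * d * ((k + 4) * 2 ^ k) := by
      have h2 : 1 ≤ 3 * d := by omega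
      exact Nat.one_le_iff_ne_zero.mpr (by positivity)
    exact_mod_cast h1
  have hXpos : 0 < X := by
    rw [hX]; positivity
  have hRX : (R.card : ℝ) ^ A.card ≤ X := by
    have h1 : (R.card : ℝ) ≤ (3 * d * ((k + 4) * 2 ^ k) : ℝ) := by exact_mod_cast hRc
    calc (R.card : ℝ) ^ A.card ≤ (3 * d * ((k + 4) * 2 ^ k) : ℝ) ^ A.card :=
          pow_le_pow_left₀ (by positivity) h1 _
      _ ≤ X := pow_le_pow_right₀ hbase1 hAc
  have hsub : (univ.filter fun σ : Ord d => ∀ a ∈ A, ∀ f ∈ R, f ∉ A → σ.symm a < σ.symm f) ⊆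
      (univ.filter fun σ : Ord d => ∀ e : E d, InCopy c e → e ∉ final σ) := by
    intro σ hσ
    rw [Finset.mem_filter] at hσ ⊢
    refine ⟨Finset.mem_univ _, fun e he hef => ?_⟩
    have hAf : A ⊆ final σ := hAcc d σ A hA (fun a ha b hb f hf hfA =>
      hσ.2 a ha f (Finset.mem_biUnion.mpr ⟨b, hb, hf⟩) hfA)
    obtain ⟨-, c', hc', -, hall⟩ := hAe e he
    apply hFree d σ
    refine ⟨c', hc', fun f hf => ?_⟩
    by_cases hfe : f = e
    · rw [hfe]; exact hef
    · exact hAf (hall f hf hfe)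
  have hcard : (((univ.filter fun σ : Ord d =>
      ∀ a ∈ A, ∀ f ∈ R, f ∉ A → σ.symm a < σ.symm f).card : ℕ) : ℝ) ≤
      ((univ.filter fun σ : Ord d => ∀ e : E d, InCopy c e → e ∉ final σ).card : ℝ) := by
    exact_mod_cast Finset.card_le_card hsub
  rw [div_le_iff₀ hXpos]
  have hP' : (Fintype.card (Ord d) : ℝ) ≤ (R.card : ℝ) ^ A.card *
      (((univ.filter fun σ : Ord d =>
      ∀ a ∈ A, ∀ f ∈ R, f ∉ A → σ.symm a < σ.symm f).card : ℕ) : ℝ) := by
    refine le_trans (le_of_eq ?_) (hP.trans (le_of_eq ?_))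
    · exact congrArg (fun i => ((@Fintype.card (Ord d) i : ℕ) : ℝ)) (Subsingleton.elim _ _)
    · refine congrArg (fun z : ℕ => (R.card : ℝ) ^ A.card * (z : ℝ)) ?_
      refine congrArg Finset.card ?_
      ext σ
      simp only [Finset.mem_filter, Finset.mem_univ, true_and]
  calc (Fintype.card (Ord d) : ℝ) ≤ (R.card : ℝ) ^ A.card *
      (((univ.filter fun σ : Ord d =>
      ∀ a ∈ A, ∀ f ∈ R, f ∉ A → σ.symm a < σ.symm f).card : ℕ) : ℝ) := hP'
    _ ≤ X * ((univ.filter fun σ : Ord d => ∀ e : E d, InCopy c e → e ∉ final σ).card : ℝ) :=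
        mul_le_mul hRX hcard (by positivity) hXpos.le
    _ = ((univ.filter fun σ : Ord d => ∀ e : E d, InCopy c e → e ∉ final σ).card : ℝ) * X :=
        mul_comm _ _

open Classical in
theorem t (hFree : StFree) (hAcc : StAcc) (hNb : StNb) (hSet : StSet) (hPrec : StPrec) :
    StLB := by
  intro d k h
  set X : ℝ := (3 * d * ((k + 4) * 2 ^ k) : ℝ) ^ ((k + 4) * 2 ^ k) with hX
  have hone := perCopy hFree hAcc hNb hSet hPrec d k h
  obtain ⟨S, -, hS⟩ := Finset.exists_subset_card_eq (s := (univ : Finset (Fin d))) (n := k)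
    (by rw [Finset.card_univ, Fintype.card_fin]; omega)
  set P : Finset (Fin d → Bool) :=
    Fintype.piFinset (fun i => if i ∈ S then {false} else (univ : Finset Bool)) with hPdef
  have hPc : P.card = 2 ^ (d - k) := by
    rw [hPdef, Fintype.card_piFinset]
    have h1 : ∀ i : Fin d, (if i ∈ S then ({false} : Finset Bool) else univ).card =
        if i ∈ S then 1 else 2 := by
      intro i
      split_ifs <;> simp
    rw [Finset.prod_congr rfl (fun i _ => h1 i), Finset.prod_ite]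
    rw [Finset.prod_const_one, one_mul, Finset.prod_const]
    congr 1
    have h2 : (univ.filter fun i => i ∉ S) = Sᶜ := by
      ext i; simp
    rw [h2, Finset.card_compl, Fintype.card_fin, hS]
  set Q : Finset (Finset (Fin d) × (Fin d → Bool)) := P.image (fun y => (S, y)) with hQ
  have hQc : Q.card = 2 ^ (d - k) := by
    rw [hQ, Finset.card_image_of_injective _ (fun a b hab => (Prod.mk.inj hab).2), hPc]
  have hQs : Q ⊆ Copies d k := by
    intro c hc
    rw [hQ, Finset.mem_image] at hc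
    obtain ⟨y, hy, rfl⟩ := hc
    rw [hPdef, Fintype.mem_piFinset] at hy
    simp only [Copies, Finset.mem_filter, Finset.mem_univ, true_and]
    refine ⟨hS, fun i hi => ?_⟩
    have := hy i
    rw [if_pos hi, Finset.mem_singleton] at this
    exact this
  have hN : 0 < (Fintype.card (Ord d) : ℝ) := by
    have : Nonempty (Ord d) := ⟨(Fintype.equivFin (E d)).symm⟩
    exact_mod_cast Fintype.card_pos
  have hsum : (∑ σ : Ord d, (NE k σ : ℝ)) = ∑ c ∈ Copies d k,
      ((univ.filter fun σ : Ord d => ∀ e : E d, InCopy c e → e ∉ final σ).card : ℝ) := by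
    have h1 : ∀ σ : Ord d, (NE k σ : ℝ) = ∑ c ∈ Copies d k,
        if (∀ e : E d, InCopy c e → e ∉ final σ) then (1 : ℝ) else 0 := by
      intro σ
      rw [NE, Finset.card_filter]
      push_cast
      rfl
    rw [Finset.sum_congr rfl (fun σ _ => h1 σ), Finset.sum_comm]
    apply Finset.sum_congr rfl
    intro c _
    rw [Finset.card_filter]
    push_cast
    rfl
  rw [EN, le_div_iff₀ hN, hsum]
  calc (2 : ℝ) ^ (d - k) / X * (Fintype.card (Ord d) : ℝ)
      = ∑ c ∈ Q, (Fintype.card (Ord d) : ℝ) / X := by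
        rw [Finset.sum_const, hQc, nsmul_eq_mul]
        push_cast
        ring
    _ ≤ ∑ c ∈ Q, ((univ.filter fun σ : Ord d =>
          ∀ e : E d, InCopy c e → e ∉ final σ).card : ℝ) :=
        Finset.sum_le_sum (fun c hc => hone c (hQs hc))
    _ ≤ ∑ c ∈ Copies d k, ((univ.filter fun σ : Ord d =>
          ∀ e : E d, InCopy c e → e ∉ final σ).card : ℝ) :=
        Finset.sum_le_sum_of_subset_of_nonneg hQs (fun _ _ _ => by positivity)

end Pool.Agent.K7.H80.EC.LBfix
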