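import Pool.Agent.K7.H65.EC_ACC
import Pool.Agent.K7.H46.EC_FREE
import Pool.Agent.K7.H56.EC_NB
import Pool.Agent.K7.H62.EC_SET
import Pool.Agent.K7.H71.EC_PREC
import Pool.Agent.K7.H80.EC.LBfix
import Pool.Agent.K7.H78.EC_ASYL
import Pool.Agent.K7.H23.EC_DISJ

set_option autoImplicit false

namespace Pool.Agent.K7.H80.EC

theorem lb : StLB :=
  Pool.Agent.K7.H80.EC.LBfix.t Pool.Agent.K7.H46.ECFREE.t Pool.Agent.K7.H65.ECACC.t
    Pool.Agent.K7.H56.ECNB.t Pool.Agent.K7.H62.ECSET.t Pool.Agent.K7.H71.ECPREC.t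

theorem asyl : StAsyL := Pool.Agent.K7.H78.ECASYL.t
theorem disj : StDisj := Pool.Agent.K7.H23.ECDISJ.t

end Pool.Agent.K7.H80.EC
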