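import Pool.Agent.K7.H80.EC.Stm

set_option autoImplicit false

namespace Pool.Agent.K7.H80.EC

open Finset Filter

theorem main (hUB : StUB) (hLB : StLB) (hU : StAsyU) (hL : StAsyL) : StMain := by
  refine ⟨?_, ?_⟩
  · intro ε hε k hk
    have h1 := hL ε hε k hk
    refine tendsto_atTop_mono' atTop ?_ h1
    -- need k d + 2 ≤ d eventually
    have h2 : ∀ᶠ d : ℕ in atTop, Real.logb 2 (d : ℝ) + 2 ≤ d := by
      have h3 : Tendsto (fun d : ℕ => (d : ℝ) - Real.logb 2 d) atTop atTop := by
        have : (fun d : ℕ => (d : ℝ) - Real.logb 2 d) =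
            (fun x : ℝ => x - Real.log x * (Real.log 2)⁻¹) ∘ (fun d : ℕ => (d : ℝ)) := by
          funext d; simp [Real.logb, div_eq_mul_inv]
        rw [this]
        refine Tendsto.comp ?_ tendsto_natCast_atTop_atTop
        have h4 : (fun x : ℝ => Real.log x * (Real.log 2)⁻¹) =o[atTop] (fun x : ℝ => x) := by
          exact ((Real.isLittleO_log_id_atTop).const_mul_left ((Real.log 2)⁻¹)).congr
            (fun x => mul_comm _ _) (fun x => rfl)
        have h5 : Tendsto (fun x : ℝ => x + -(Real.log x * (Real.log 2)⁻¹)) atTop atTop := by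
          have h6 := h4.neg_left
          have h7 : ∀ᶠ x : ℝ in atTop, x / 2 ≤ x + -(Real.log x * (Real.log 2)⁻¹) := by
            have h8 := h6.def (show (0:ℝ) < 1/2 by norm_num)
            filter_upwards [h8, eventually_gt_atTop (0:ℝ)] with x hx hx0
            have := neg_abs_le (-(Real.log x * (Real.log 2)⁻¹))
            rw [Real.norm_eq_abs, Real.norm_eq_abs, abs_of_pos hx0] at hx
            linarith
          exact tendsto_atTop_mono' atTop h7 (tendsto_id.atTop_div_const (by norm_num))
        simpa [sub_eq_add_neg] using h5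
      filter_upwards [h3.eventually_ge_atTop 2] with d hd
      linarith
    filter_upwards [hk, h2, eventually_ge_atTop 1] with d hd h2d hd1
    apply hLB
    have hlog : 0 ≤ Real.logb 2 (d : ℝ) := Real.logb_nonneg (by norm_num) (by exact_mod_cast hd1)
    have h9 : (k d : ℝ) + 2 ≤ d := by nlinarith
    exact_mod_cast h9
  · intro ε hε k hkd hk
    have h1 := hU ε hε k hkd hk
    refine tendsto_of_tendsto_of_tendsto_of_le_of_le' tendsto_const_nhds h1 ?_ ?_
    · refine Eventually.of_forall fun d => ?_
      unfold EN
      positivity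
    · filter_upwards [hk, eventually_ge_atTop 2] with d hd hd2
      apply hUB _ _ _ (hkd d)
      have hlog : 1 ≤ Real.logb 2 (d : ℝ) := by
        rw [Real.le_logb_iff_rpow_le (by norm_num) (by positivity)]
        simpa using (show (2:ℝ) ≤ d by exact_mod_cast hd2)
      have : (0 : ℝ) < k d := by nlinarith
      exact_mod_cast this

end Pool.Agent.K7.H80.EC
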