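import Pool.Agent.K7.H80.EC.Stm

set_option autoImplicit false

namespace Pool.Agent.K7.H80.EC

open Finset Filter

/-- FIRST2: if `e` is among the first `M` edges and no copy of `Q_2` through `e` has its other three
edges among the first `M` edges, then `e` is accepted. -/
def StFirst2 : Prop := ∀ (d : ℕ) (σ : Ord d) (e : E d) (M : ℕ), (σ.symm e : ℕ) < M →
  (∀ c ∈ Copies d 2, InCopy c e → ∃ f : E d, InCopy c f ∧ f ≠ e ∧ M ≤ (σ.symm f : ℕ)) →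
  e ∈ final σ

/-- weight of a subset under independent inclusion with probability `p` -/
noncomputable def wt (α : Type) [Fintype α] (p : ℝ) (W : Finset α) : ℝ :=
  p ^ W.card * (1 - p) ^ (Fintype.card α - W.card)

open Classical in
/-- MIX: if all initial segments of `σ` are in the family `F`, average over `M` (binomial). -/
def StMix : Prop := ∀ (α : Type) [Fintype α] (F : Finset (Finset α)) (p : ℝ), 0 ≤ p → p ≤ 1 →
  ((univ.filter fun σ : Fin (Fintype.card α) ≃ α =>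
      ∀ M : ℕ, (univ.filter fun a : α => (σ.symm a : ℕ) < M) ∈ F).card : ℝ) ≤
    (Fintype.card (Fin (Fintype.card α) ≃ α) : ℝ) * ∑ W ∈ F, wt α p W

open Classical in
/-- PROD: independent local events. -/
def StProd : Prop := ∀ (α : Type) [Fintype α] (p q : ℝ), 0 ≤ p → p ≤ 1 →
  ∀ (C : Finset α) (T : α → Finset α) (X : α → Finset α → Prop),
  (∀ e ∈ C, ∀ f ∈ C, e ≠ f → Disjoint (T e) (T f)) →
  (∀ e ∈ C, ∀ W : Finset α, X e W ↔ X e (W ∩ T e)) →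
  (∀ e ∈ C, q ≤ ∑ W ∈ univ.filter (fun W => X e W), wt α p W) →
  ∑ W ∈ univ.filter (fun W : Finset α => ∀ e ∈ C, ¬ X e W), wt α p W ≤ (1 - q) ^ C.card

open Classical in
/-- LOC: the local event has probability at least `p - d p^4`. -/
def StLoc : Prop := ∀ (d : ℕ) (e : E d) (p : ℝ), 0 ≤ p → p ≤ 1 →
  p - d * p ^ 4 ≤ ∑ W ∈ univ.filter (fun W : Finset (E d) => e ∈ W ∧
    ∀ c ∈ Copies d 2, InCopy c e → ∃ f : E d, InCopy c f ∧ f ≠ e ∧ f ∉ W), wt (E d) p W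

/-- UB2 -/
def StUB2 : Prop := ∀ (d k : ℕ), 1 ≤ k → k ≤ d → ∀ p : ℝ, 0 ≤ p → p ≤ 1 → 2 * d * p ^ 3 ≤ 1 →
  EN d k ≤ 4 ^ d * Real.exp (-(p * (2 : ℝ) ^ (k - 1) / (2 * (2 * k + 1))))

/-- ASYU2 (here `p = (1/(2d))^(1/3)`) -/
def StAsyU2 : Prop := ∀ ε : ℝ, 0 < ε → ∀ k : ℕ → ℕ, (∀ d, k d ≤ d) →
  (∀ᶠ d : ℕ in atTop, (4 / 3 + ε) * Real.logb 2 d ≤ k d) →
  Tendsto (fun d : ℕ => (4 : ℝ) ^ d *
    Real.exp (-((1 / (2 * (d : ℝ))) ^ (1 / 3 : ℝ) * (2 : ℝ) ^ (k d - 1) / (2 * (2 * k d + 1)))))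
    atTop (nhds 0)

/-- MAIN2 -/
def StMain2 : Prop :=
  (∀ ε : ℝ, 0 < ε → ∀ k : ℕ → ℕ,
    (∀ᶠ d : ℕ in atTop, (k d : ℝ) ≤ (1 - ε) * Real.logb 2 d) →
    Tendsto (fun d : ℕ => EN d (k d)) atTop atTop) ∧
  (∀ ε : ℝ, 0 < ε → ∀ k : ℕ → ℕ, (∀ d, k d ≤ d) →
    (∀ᶠ d : ℕ in atTop, (4 / 3 + ε) * Real.logb 2 d ≤ k d) →
    Tendsto (fun d : ℕ => EN d (k d)) atTop (nhds 0))

end Pool.Agent.K7.H80.EC
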