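import Pool.Agent.K7.H80.EC.Lower
import Pool.Agent.K7.H65.EC_FIRST2
import Pool.Agent.K7.H65.EC_MIX
import Pool.Agent.K7.H76.EC_PROD
import Pool.Agent.K7.H88.EC_LOC
import Pool.Agent.K7.H92.EC_ASYU2
import Pool.Agent.K7.H70.EC_UB2

set_option autoImplicit false

namespace Pool.Agent.K7.H80.EC

theorem ub2 : StUB2 :=
  Pool.Agent.K7.H70.ECUB2.t Pool.Agent.K7.H65.ECFIRST2.t disj Pool.Agent.K7.H65.ECMIX.t
    Pool.Agent.K7.H76.ECPROD.t Pool.Agent.K7.H88.ECLOC.t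

theorem asyu2 : StAsyU2 := Pool.Agent.K7.H92.ECASYU2.t

end Pool.Agent.K7.H80.EC
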